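import Pool.Agent.H61.BRX.Stmts

/-!
# Board BRX, row ARI
-/

set_option autoImplicit false

namespace Pool.STN

lemma ari_sq (l : ℕ) : (l + 1) ^ 2 ≤ 4 * 2 ^ l := by
  induction l with
  | zero => norm_num
  | succ l ih =>
    rcases Nat.lt_or_ge l 2 with h | h
    · interval_cases l <;> norm_num
    · rw [pow_succ 2 l]
      nlinarith

lemma ari_nat (N k L X x : ℕ) (hk : 2 ≤ k) (hL : 1 ≤ L) (hLk : L ≤ k)
    (hXk : X ≤ 3 * L * k ^ N)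
    (hB : ∀ B : ℕ, X ^ (2 ^ L) ≤ 2 ^ B → k ≤ (L + 1) * (7 * B + 7)) (hx : x ≤ X ^ (2 ^ L)) :
    k ≤ (196 * (N + 4) ^ 2) * 16 ^ L ∧ ∃ B : ℕ, x ≤ 2 ^ B ∧
      B ≤ (196 * (N + 4) ^ 2) * (N + 3) * 32 ^ L := by
  obtain ⟨l, hl⟩ : ∃ l, Nat.clog 2 k = l + 1 :=
    Nat.exists_eq_succ_of_ne_zero (Nat.clog_pos (by norm_num) hk).ne'
  have hk1 : k ≤ 2 ^ (l + 1) := by
    rw [← hl]
    exact Nat.le_pow_clog (by norm_num) k
  have hk2 : 2 ^ l < k := by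
    have := Nat.pow_pred_clog_lt_self (b := 2) (by norm_num) (show 1 < k by omega)
    rw [hl] at this
    exact this
  have hX2 : X ≤ k ^ (N + 3) := by
    calc X ≤ 3 * L * k ^ N := hXk
      _ ≤ (k ^ 2) * k * k ^ N := by
        refine Nat.mul_le_mul_right _ (Nat.mul_le_mul ?_ hLk)
        nlinarith
      _ = k ^ (N + 3) := by ring
  set B := (l + 1) * (N + 3) * 2 ^ L with hBdef
  have hXB : X ^ (2 ^ L) ≤ 2 ^ B := by
    calc X ^ (2 ^ L) ≤ (k ^ (N + 3)) ^ (2 ^ L) := Nat.pow_le_pow_left hX2 _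
      _ ≤ ((2 ^ (l + 1)) ^ (N + 3)) ^ (2 ^ L) :=
        Nat.pow_le_pow_left (Nat.pow_le_pow_left hk1 _) _
      _ = 2 ^ B := by rw [← pow_mul, ← pow_mul, ← mul_assoc]
  have h1 := hB B hXB
  have hL2 : L + 1 ≤ 2 ^ L := Nat.lt_two_pow_self
  have h2 : 7 * B + 7 ≤ 7 * (N + 4) * 2 ^ L * (l + 1) := by
    have : 1 ≤ (l + 1) * 2 ^ L := Nat.one_le_iff_ne_zero.2 (by positivity)
    rw [hBdef]
    nlinarith
  have h3 : k ≤ 7 * (N + 4) * 4 ^ L * (l + 1) := by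
    calc k ≤ (L + 1) * (7 * B + 7) := h1
      _ ≤ 2 ^ L * (7 * (N + 4) * 2 ^ L * (l + 1)) := Nat.mul_le_mul hL2 h2
      _ = 7 * (N + 4) * (2 ^ L * 2 ^ L) * (l + 1) := by ring
      _ = 7 * (N + 4) * 4 ^ L * (l + 1) := by rw [← mul_pow, show 2 * 2 = 4 from rfl]
  have h4 : (l + 1) ^ 2 ≤ 4 * k := le_trans (ari_sq l) (by omega)
  have h5 : k * k ≤ (196 * (N + 4) ^ 2 * 16 ^ L) * k := by
    calc k * k ≤ (7 * (N + 4) * 4 ^ L * (l + 1)) * (7 * (N + 4) * 4 ^ L * (l + 1)) :=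
          Nat.mul_le_mul h3 h3
      _ = 49 * (N + 4) ^ 2 * (4 ^ L * 4 ^ L) * (l + 1) ^ 2 := by ring
      _ = 49 * (N + 4) ^ 2 * 16 ^ L * (l + 1) ^ 2 := by rw [← mul_pow, show 4 * 4 = 16 from rfl]
      _ ≤ 49 * (N + 4) ^ 2 * 16 ^ L * (4 * k) := Nat.mul_le_mul_left _ h4
      _ = (196 * (N + 4) ^ 2 * 16 ^ L) * k := by ring
  have h6 : k ≤ 196 * (N + 4) ^ 2 * 16 ^ L := Nat.le_of_mul_le_mul_right h5 (by omega)
  refine ⟨h6, B, hx.trans hXB, ?_⟩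
  have h7 : l + 1 ≤ k := by
    have : l < 2 ^ l := Nat.lt_two_pow_self
    omega
  calc B = (l + 1) * (N + 3) * 2 ^ L := rfl
    _ ≤ (196 * (N + 4) ^ 2 * 16 ^ L) * (N + 3) * 2 ^ L :=
      Nat.mul_le_mul_right _ (Nat.mul_le_mul_right _ (h7.trans h6))
    _ = (196 * (N + 4) ^ 2) * (N + 3) * (16 ^ L * 2 ^ L) := by ring
    _ = (196 * (N + 4) ^ 2) * (N + 3) * 32 ^ L := by rw [← mul_pow, show 16 * 2 = 32 from rfl]

theorem ARI_thm : ARIStmt := by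
  intro N
  set E : ℕ := (196 * (N + 4) ^ 2) * (N + 3) * 32 with hE
  have hE1 : 2 ≤ E := by
    have h1 : 1 ≤ (N + 4) ^ 2 := Nat.one_le_iff_ne_zero.2 (by positivity)
    rw [hE]
    nlinarith
  have hE2 : (1 : ℝ) < E := by exact_mod_cast hE1
  refine ⟨Real.log E, Real.log_pos hE2, ?_⟩
  intro k L X x hk hL hLk _ hXk hB hx
  obtain ⟨h1, B, h2, h3⟩ := ari_nat N k L X x hk hL hLk hXk hB hx
  have hexp : Real.exp (Real.log E * L) = ((E ^ L : ℕ) : ℝ) := by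
    rw [mul_comm, Real.exp_nat_mul, Real.exp_log (by linarith)]
    push_cast
    rfl
  have hDpos : 1 ≤ 196 * (N + 4) ^ 2 * (N + 3) := Nat.one_le_iff_ne_zero.2 (by positivity)
  have hBE : (196 * (N + 4) ^ 2) * (N + 3) * 32 ^ L ≤ E ^ L := by
    rw [hE, mul_pow _ 32 L]
    refine Nat.mul_le_mul_right _ ?_
    calc 196 * (N + 4) ^ 2 * (N + 3) = (196 * (N + 4) ^ 2 * (N + 3)) ^ 1 := (pow_one _).symm
      _ ≤ (196 * (N + 4) ^ 2 * (N + 3)) ^ L := Nat.pow_le_pow_right hDpos hL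
  have hkE : k ≤ E ^ L := by
    refine h1.trans (le_trans ?_ hBE)
    calc 196 * (N + 4) ^ 2 * 16 ^ L = 196 * (N + 4) ^ 2 * 1 * 16 ^ L := by ring
      _ ≤ 196 * (N + 4) ^ 2 * (N + 3) * 32 ^ L :=
        Nat.mul_le_mul (Nat.mul_le_mul_left _ (by omega)) (Nat.pow_le_pow_left (by norm_num) L)
  rw [hexp]
  refine ⟨by exact_mod_cast hkE, ?_⟩
  have hBr : (B : ℝ) ≤ ((E ^ L : ℕ) : ℝ) := by exact_mod_cast h3.trans hBE
  calc (x : ℝ) ≤ ((2 ^ B : ℕ) : ℝ) := by exact_mod_cast h2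
    _ = (2 : ℝ) ^ B := by push_cast; rfl
    _ ≤ (Real.exp 1) ^ B := by
      refine pow_le_pow_left₀ (by norm_num) ?_ B
      have := Real.add_one_le_exp (1 : ℝ)
      linarith
    _ = Real.exp B := by rw [← Real.exp_nat_mul, mul_one]
    _ ≤ Real.exp ((E ^ L : ℕ) : ℝ) := Real.exp_le_exp.2 hBr

end Pool.STN
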